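import Mathlib

/-!
The number of linear inequalities used in the relaxation.
-/

open scoped BigOperators

namespace Pool.Agent.Lib.P325cv

theorem exists_rpow_ge (a B : ℝ) (ha : 0 < a) : ∃ N0 : ℕ, ∀ N ≥ N0, B ≤ (2 * (N : ℝ)) ^ a := by
  have h1 : Filter.Tendsto (fun N : ℕ => (2 * (N : ℝ)) ^ a) Filter.atTop Filter.atTop := by
    apply (tendsto_rpow_atTop ha).comp
    exact Filter.Tendsto.const_mul_atTop (by norm_num) tendsto_natCast_atTop_atTop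
  obtain ⟨N0, hN0⟩ := Filter.eventually_atTop.1 (h1.eventually_ge_atTop B)
  exact ⟨N0, hN0⟩

theorem para_t (θ t : ℝ) (hθ : 0 < θ) (ht4 : 4 ≤ t) (ht : 256 * (4 / θ + 3) ≤ t) (R D : ℕ)
    (hR : (R : ℝ) ≤ Real.exp t) (hD : (D : ℝ) ≤ t) :
    2 + (R : ℝ) * (((⌈2 * ((D : ℝ) + 1) ^ 2 * ((R : ℝ) + 1) / θ⌉₊ + 1 : ℕ) : ℝ) + 1) ^ (D + 1) ≤
      Real.exp (3 * t ^ 2) := by
  have het : 1 ≤ Real.exp t := Real.one_le_exp (by linarith)
  have hD0 : (0 : ℝ) ≤ D := Nat.cast_nonneg _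
  have hR0 : (0 : ℝ) ≤ R := Nat.cast_nonneg _
  -- exp t is large
  have h1 : 4 * (t + 1) ^ 2 / θ + 3 ≤ Real.exp t := by
    have e1 : Real.exp t = Real.exp (t / 4) ^ 4 := by
      rw [← Real.exp_nat_mul]
      congr 1
      push_cast
      ring
    have e2 : t / 4 + 1 ≤ Real.exp (t / 4) := Real.add_one_le_exp _
    have e3 : (t / 4 + 1) ^ 4 ≤ Real.exp (t / 4) ^ 4 :=
      pow_le_pow_left₀ (by linarith) e2 4
    rw [e1]
    refine le_trans ?_ e3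
    have hc0 : 0 < 4 / θ := by positivity
    set c := 4 / θ with hc
    have e4 : 4 * (t + 1) ^ 2 / θ = c * (t + 1) ^ 2 := by rw [hc]; ring
    rw [e4]
    have e5 : (t / 4 + 1) ^ 4 = (t + 4) ^ 2 / 256 * (t + 4) ^ 2 := by ring
    rw [e5]
    have e6 : c + 3 ≤ (t + 4) ^ 2 / 256 := by
      rw [le_div_iff₀ (by norm_num)]
      nlinarith
    have e7 : (c + 3) * (t + 4) ^ 2 ≤ (t + 4) ^ 2 / 256 * (t + 4) ^ 2 :=
      mul_le_mul_of_nonneg_right e6 (sq_nonneg _)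
    refine le_trans ?_ e7
    have e8 : (t + 1) ^ 2 ≤ (t + 4) ^ 2 := by nlinarith
    have e9 : c * (t + 1) ^ 2 ≤ c * (t + 4) ^ 2 := mul_le_mul_of_nonneg_left e8 hc0.le
    nlinarith
  have h2 : ((⌈2 * ((D : ℝ) + 1) ^ 2 * ((R : ℝ) + 1) / θ⌉₊ + 1 : ℕ) : ℝ) + 1 ≤
      Real.exp (2 * t) := by
    have e1 : (⌈2 * ((D : ℝ) + 1) ^ 2 * ((R : ℝ) + 1) / θ⌉₊ : ℝ) ≤
        2 * ((D : ℝ) + 1) ^ 2 * ((R : ℝ) + 1) / θ + 1 := by
      exact (Nat.ceil_lt_add_one (by positivity)).le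
    have e2 : 2 * ((D : ℝ) + 1) ^ 2 * ((R : ℝ) + 1) / θ ≤
        2 * (t + 1) ^ 2 * (2 * Real.exp t) / θ := by
      apply div_le_div_of_nonneg_right _ hθ.le
      apply mul_le_mul
      · apply mul_le_mul_of_nonneg_left _ (by norm_num)
        exact pow_le_pow_left₀ (by positivity) (by linarith) 2
      · linarith
      · positivity
      · positivity
    have e3 : 2 * (t + 1) ^ 2 * (2 * Real.exp t) / θ = (4 * (t + 1) ^ 2 / θ) * Real.exp t := by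
      ring
    have e4 : Real.exp (2 * t) = Real.exp t * Real.exp t := by
      rw [← Real.exp_add]; ring_nf
    rw [e4]
    push_cast
    have e5 : (4 * (t + 1) ^ 2 / θ + 3) * Real.exp t ≤ Real.exp t * Real.exp t :=
      mul_le_mul_of_nonneg_right h1 (by positivity)
    nlinarith
  have h3 : (((⌈2 * ((D : ℝ) + 1) ^ 2 * ((R : ℝ) + 1) / θ⌉₊ + 1 : ℕ) : ℝ) + 1) ^ (D + 1) ≤
      Real.exp (2 * t * (t + 1)) := by
    calc _ ≤ Real.exp (2 * t) ^ (D + 1) := pow_le_pow_left₀ (by positivity) h2 _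
      _ = Real.exp (((D + 1 : ℕ) : ℝ) * (2 * t)) := by rw [← Real.exp_nat_mul]
      _ ≤ _ := by
          apply Real.exp_le_exp.2
          push_cast
          nlinarith
  have h4 : (R : ℝ) * (((⌈2 * ((D : ℝ) + 1) ^ 2 * ((R : ℝ) + 1) / θ⌉₊ + 1 : ℕ) : ℝ) + 1) ^ (D + 1)
      ≤ Real.exp (2 * t ^ 2 + 3 * t) := by
    calc _ ≤ Real.exp t * Real.exp (2 * t * (t + 1)) :=
          mul_le_mul hR h3 (by positivity) (by positivity)
      _ = _ := by rw [← Real.exp_add]; congr 1; ring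
  have h5 : 2 + Real.exp (2 * t ^ 2 + 3 * t) ≤ Real.exp (2 * t ^ 2 + 3 * t + 1) := by
    rw [Real.exp_add (2 * t ^ 2 + 3 * t) 1]
    have e1 : (2 : ℝ) ≤ Real.exp 1 := by
      have := Real.add_one_le_exp (1 : ℝ)
      linarith
    have e2 : (2 : ℝ) ≤ Real.exp (2 * t ^ 2 + 3 * t) := by
      have := Real.add_one_le_exp (2 * t ^ 2 + 3 * t)
      nlinarith
    nlinarith
  refine le_trans (le_trans (by linarith) h5) (Real.exp_le_exp.2 ?_)
  nlinarith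

theorem para (p q θ : ℝ) (hp : 0 < p) (hq : 2 * p < q) (hθ : 0 < θ) :
    ∃ N0 : ℕ, ∀ N ≥ N0, ∀ R D : ℕ,
    (R : ℝ) ≤ Real.exp ((2 * (N : ℝ)) ^ p) → (D : ℝ) ≤ (2 * (N : ℝ)) ^ p →
    2 + (R : ℝ) * (((⌈2 * ((D : ℝ) + 1) ^ 2 * ((R : ℝ) + 1) / θ⌉₊ + 1 : ℕ) : ℝ) + 1) ^ (D + 1) ≤
      Real.exp ((2 * (N : ℝ)) ^ q) := by
  obtain ⟨N1, hN1⟩ := exists_rpow_ge p (max 4 (256 * (4 / θ + 3))) hp
  obtain ⟨N2, hN2⟩ := exists_rpow_ge (q - 2 * p) 3 (by linarith)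
  refine ⟨max (max N1 N2) 1, fun N hN R D hR hD => ?_⟩
  have hNN1 : N1 ≤ N := le_trans (le_trans (le_max_left _ _) (le_max_left _ _)) hN
  have hNN2 : N2 ≤ N := le_trans (le_trans (le_max_right _ _) (le_max_left _ _)) hN
  have hN0 : 1 ≤ N := le_trans (le_max_right _ _) hN
  have hNpos : (0 : ℝ) < 2 * (N : ℝ) := by
    have : (1 : ℝ) ≤ N := by exact_mod_cast hN0
    linarith
  have h1 := hN1 N hNN1
  have h2 := hN2 N hNN2
  set t := (2 * (N : ℝ)) ^ p with ht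
  refine (para_t θ t hθ (le_trans (le_max_left _ _) h1) (le_trans (le_max_right _ _) h1) R D hR
    hD).trans (Real.exp_le_exp.2 ?_)
  have e1 : t ^ 2 = (2 * (N : ℝ)) ^ (2 * p) := by
    rw [ht, ← Real.rpow_natCast, ← Real.rpow_mul hNpos.le]
    congr 1
    push_cast
    ring
  have e2 : (2 * (N : ℝ)) ^ q = (2 * (N : ℝ)) ^ (q - 2 * p) * (2 * (N : ℝ)) ^ (2 * p) := by
    rw [← Real.rpow_add hNpos]
    congr 1
    ring
  rw [e1, e2]
  exact mul_le_mul_of_nonneg_right h2 (by positivity)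

end Pool.Agent.Lib.P325cv
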