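import Mathlib

/-!
Outer approximation of a polytope by few inequalities. `K` is the convex hull of the points `lam z`
with coordinates in `[-1, 1]` and coordinate sum `1`, and `K` contains the unit vectors. A point that
satisfies all valid inequalities with coefficients in `{0, ..., M}` lies in the dilation of `K` by
`1 + η` about the centre of the simplex, if `2 m ^ 2 ≤ M η`.
-/

open scoped BigOperators

namespace Pool.Agent.Lib.P325cv

theorem rounding {Z : Type*} [Fintype Z] [Nonempty Z] {m : ℕ} (lam : Z → Fin m → ℝ)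
    (b : Fin m → Z) (hb : ∀ i, lam (b i) = Pi.single i 1) (h1 : ∀ z i, |lam z i| ≤ 1)
    (hs : ∀ z, ∑ i, lam z i = 1) (M : ℕ) (hM : 1 ≤ M) (η : ℝ) (hη : 0 < η)
    (hMη : 2 * (m : ℝ) ^ 2 ≤ M * η) (x : Fin m → ℝ) (hx : ∑ i, x i = 1)
    (hu : ∀ u : Fin m → Fin (M + 1), ∃ z, ∑ i, ((u i : ℕ) : ℝ) * x i ≤
      ∑ i, ((u i : ℕ) : ℝ) * lam z i) :
    (1 + η)⁻¹ • (x + η • fun _ => (1 / m : ℝ)) ∈ convexHull ℝ (Set.range lam) := by
  classical
  have hM0 : (0 : ℝ) < M := by exact_mod_cast hM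
  have hm : 0 < m := by
    rcases Nat.eq_zero_or_pos m with h | h
    · subst h
      simp at hx
    · exact h
  have hm0 : (0 : ℝ) < m := by exact_mod_cast hm
  -- the coordinates of x are in [-1, 1]
  have hxu : ∀ i, x i ≤ 1 := by
    intro i
    obtain ⟨z, hz⟩ := hu (fun l => if l = i then ⟨M, Nat.lt_succ_self M⟩ else 0)
    have e1 : ∀ v : Fin m → ℝ, ∑ l, (((if l = i then (⟨M, Nat.lt_succ_self M⟩ : Fin (M + 1))
        else 0 : Fin (M + 1)) : ℕ) : ℝ) * v l = M * v i := by
      intro v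
      rw [Finset.sum_eq_single i]
      · simp
      · intro l _ hl
        simp [hl]
      · intro h
        exact absurd (Finset.mem_univ i) h
    rw [e1, e1] at hz
    have h2 := (abs_le.1 (h1 z i)).2
    have h3 := le_of_mul_le_mul_left hz hM0
    linarith
  have hxl : ∀ i, -1 ≤ x i := by
    intro i
    obtain ⟨z, hz⟩ := hu (fun l => if l = i then 0 else ⟨M, Nat.lt_succ_self M⟩)
    have e1 : ∀ v : Fin m → ℝ, ∑ l, v l = 1 → ∑ l, (((if l = i then 0 else
        (⟨M, Nat.lt_succ_self M⟩ : Fin (M + 1)) : Fin (M + 1)) : ℕ) : ℝ) * v l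
          = M * (1 - v i) := by
      intro v hv
      have e2 : ∀ l, (((if l = i then 0 else
        (⟨M, Nat.lt_succ_self M⟩ : Fin (M + 1)) : Fin (M + 1)) : ℕ) : ℝ) * v l =
          M * v l - (if l = i then M * v l else 0) := by
        intro l
        by_cases hl : l = i
        · simp [hl]
        · simp [hl]
      rw [Finset.sum_congr rfl (fun l _ => e2 l), Finset.sum_sub_distrib, ← Finset.mul_sum, hv,
        Finset.sum_ite_eq' Finset.univ i (fun l => (M : ℝ) * v l)]
      simp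
      ring
    rw [e1 x hx, e1 _ (hs z)] at hz
    have h2 := (abs_le.1 (h1 z i)).1
    have h3 := le_of_mul_le_mul_left hz hM0
    linarith
  have hxa : ∀ i, |x i| ≤ 1 := fun i => abs_le.2 ⟨hxl i, hxu i⟩
  set K := convexHull ℝ (Set.range lam) with hK
  set x' := (1 + η)⁻¹ • (x + η • fun _ => (1 / m : ℝ)) with hx'
  have hη1 : (0 : ℝ) < 1 + η := by linarith
  by_contra hcon
  have hKc : IsClosed K := (Set.finite_range lam).isClosed_convexHull ℝ
  obtain ⟨f, u0, hf1, hf2⟩ := geometric_hahn_banach_closed_point (convex_convexHull ℝ _) hKc hcon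
  -- coefficients of f
  set v : Fin m → ℝ := fun i => f (Pi.single i 1) with hv
  have hfv : ∀ y : Fin m → ℝ, f y = ∑ i, v i * y i := by
    intro y
    have e1 : y = ∑ i, y i • (Pi.single i (1 : ℝ) : Fin m → ℝ) := by
      funext l
      simp [Finset.sum_apply, Pi.single_apply]
    conv_lhs => rw [e1]
    rw [map_sum]
    refine Finset.sum_congr rfl fun i _ => ?_
    rw [map_smul, smul_eq_mul, mul_comm]
  have : Nonempty (Fin m) := ⟨⟨0, hm⟩⟩
  obtain ⟨i0, hi0⟩ := Finite.exists_min v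
  obtain ⟨i1, hi1⟩ := Finite.exists_max v
  have hsx' : ∑ i, x' i = 1 := by
    have e : ∀ i, x' i = (1 + η)⁻¹ * (x i + η * (1 / m)) := fun i => by
      rw [hx']
      simp
    rw [Finset.sum_congr rfl (fun i _ => e i), ← Finset.mul_sum, Finset.sum_add_distrib, hx]
    rw [Finset.sum_const, Finset.card_univ, Fintype.card_fin, nsmul_eq_mul]
    field_simp
  have hbK : ∀ i, (Pi.single i (1 : ℝ) : Fin m → ℝ) ∈ K := by
    intro i
    rw [← hb i]
    exact subset_convexHull ℝ _ ⟨b i, rfl⟩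
  have hfb : ∀ i, v i < u0 := fun i => hf1 _ (hbK i)
  have hlt : v i0 < v i1 := by
    by_contra hle
    push Not at hle
    have hall : ∀ i, v i = v i0 := fun i => le_antisymm ((hi1 i).trans hle) (hi0 i)
    have e1 : f x' = v i0 := by
      rw [hfv, Finset.sum_congr rfl (fun i _ => by rw [hall i]), ← Finset.mul_sum, hsx', mul_one]
    have := hfb i0
    linarith
  set ρ : ℝ := M / (v i1 - v i0) with hρ
  have hd : 0 < v i1 - v i0 := by linarith
  have hρ0 : 0 < ρ := div_pos hM0 hd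
  have hρd : ρ * (v i1 - v i0) = M := by rw [hρ]; field_simp
  set v' : Fin m → ℝ := fun i => ρ * (v i - v i0) with hv'
  have hv'0 : ∀ i, 0 ≤ v' i := fun i => mul_nonneg hρ0.le (by have := hi0 i; linarith)
  have hv'M : ∀ i, v' i ≤ M := by
    intro i
    rw [← hρd]
    exact mul_le_mul_of_nonneg_left (by have := hi1 i; linarith) hρ0.le
  have hv'y : ∀ y : Fin m → ℝ, ∑ i, y i = 1 → ∑ i, v' i * y i = ρ * (f y - v i0) := by
    intro y hy
    rw [hfv, hv']
    have e : ∀ i, ρ * (v i - v i0) * y i = ρ * (v i * y i) - ρ * v i0 * y i := fun i => by ring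
    rw [Finset.sum_congr rfl (fun i _ => e i), Finset.sum_sub_distrib, ← Finset.mul_sum,
      ← Finset.mul_sum, hy]
    ring
  set u' : ℝ := ρ * (u0 - v i0) with hu'
  have hzu : ∀ z, ∑ i, v' i * lam z i < u' := by
    intro z
    rw [hv'y _ (hs z), hu']
    have := hf1 (lam z) (subset_convexHull ℝ _ ⟨z, rfl⟩)
    exact mul_lt_mul_of_pos_left (by linarith) hρ0
  have hx'u : u' < ∑ i, v' i * x' i := by
    rw [hv'y _ hsx', hu']
    exact mul_lt_mul_of_pos_left (by linarith) hρ0
  -- rounding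
  set u : Fin m → Fin (M + 1) := fun i => ⟨⌊v' i⌋₊, by
    have h2 : ⌊v' i⌋₊ ≤ M := by
      apply Nat.floor_le_of_le
      exact hv'M i
    omega⟩ with hudef
  have hu1 : ∀ i, |v' i - ((u i : ℕ) : ℝ)| ≤ 1 := by
    intro i
    have h2 := Nat.floor_le (hv'0 i)
    have h3 := Nat.lt_floor_add_one (v' i)
    rw [abs_le]
    constructor
    · show -1 ≤ v' i - (⌊v' i⌋₊ : ℝ)
      linarith
    · show v' i - (⌊v' i⌋₊ : ℝ) ≤ 1
      linarith
  have hround : ∀ y : Fin m → ℝ, (∀ i, |y i| ≤ 1) →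
      |∑ i, v' i * y i - ∑ i, ((u i : ℕ) : ℝ) * y i| ≤ m := by
    intro y hy
    rw [← Finset.sum_sub_distrib]
    calc |∑ i, (v' i * y i - ((u i : ℕ) : ℝ) * y i)|
        ≤ ∑ i, |v' i * y i - ((u i : ℕ) : ℝ) * y i| := Finset.abs_sum_le_sum_abs _ _
      _ ≤ ∑ _i : Fin m, (1 : ℝ) := by
          refine Finset.sum_le_sum fun i _ => ?_
          rw [← sub_mul, abs_mul]
          exact mul_le_one₀ (hu1 i) (abs_nonneg _) (hy i)
      _ = m := by simp
  obtain ⟨z, hz⟩ := hu u
  have h2 := (abs_le.1 (hround x hxa)).2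
  have h3 := (abs_le.1 (hround (lam z) (h1 z))).1
  have h4 := hzu z
  have h5 : ∑ i, v' i * x i < u' + 2 * m := by linarith
  -- x' in terms of x
  have h6 : (1 + η) * ∑ i, v' i * x' i = ∑ i, v' i * x i + η * ((∑ i, v' i) / m) := by
    have e : ∀ i, v' i * x' i = (1 + η)⁻¹ * (v' i * x i + η * (v' i * (1 / m))) := fun i => by
      rw [hx']
      simp
      ring
    rw [Finset.sum_congr rfl (fun i _ => e i), ← Finset.mul_sum, Finset.sum_add_distrib,
      ← Finset.mul_sum, ← Finset.sum_mul]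
    field_simp
  have h7 : (∑ i, v' i) ≤ (m - 1) * M := by
    rw [← Finset.add_sum_erase _ _ (Finset.mem_univ i0)]
    have e0 : v' i0 = 0 := by rw [hv']; simp
    rw [e0, zero_add]
    calc ∑ i ∈ Finset.univ.erase i0, v' i ≤ ∑ _i ∈ Finset.univ.erase i0, (M : ℝ) :=
          Finset.sum_le_sum fun i _ => hv'M i
      _ = (m - 1) * M := by
          rw [Finset.sum_const, Finset.card_erase_of_mem (Finset.mem_univ i0), Finset.card_univ,
            Fintype.card_fin, nsmul_eq_mul, Nat.cast_sub hm]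
          simp
  have h8 : (M : ℝ) < u' := by
    rw [hu', ← hρd]
    exact mul_lt_mul_of_pos_left (by have := hfb i1; linarith) hρ0
  have h9 : (∑ i, v' i) / m ≤ M - M / m := by
    rw [div_le_iff₀ hm0]
    have : (M - M / m) * (m : ℝ) = (m - 1) * M := by field_simp
    rw [this]
    exact h7
  have h10 : (1 + η) * u' < (1 + η) * ∑ i, v' i * x' i := mul_lt_mul_of_pos_left hx'u hη1
  have h11 : η * ((∑ i, v' i) / m) ≤ η * (M - M / m) := mul_le_mul_of_nonneg_left h9 hη.le
  have h12 : η * (M : ℝ) < η * u' := mul_lt_mul_of_pos_left h8 hη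
  have h13 : η * ((M : ℝ) / m) < 2 * m := by
    have : (1 + η) * u' = u' + η * u' := by ring
    have e2 : η * ((M : ℝ) - M / m) = η * M - η * (M / m) := by ring
    linarith
  have h14 : η * (M : ℝ) < 2 * m ^ 2 := by
    have e3 : η * ((M : ℝ) / m) * m = η * M := by field_simp
    have := mul_lt_mul_of_pos_right h13 hm0
    rw [e3] at this
    nlinarith
  linarith

end Pool.Agent.Lib.P325cv
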