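import Pool.Agent.Lib.P325cv.Spanner
import Pool.Agent.Lib.P325cv.Rounding

/-!
From linear inequalities to arbitrary convex constraints of small dimension.
-/

open scoped BigOperators

namespace Pool.Agent.Lib.P325cv

/-- Data for one convex constraint. -/
theorem block {Z : Type*} [Fintype Z] [Nonempty Z] {D : ℕ} (P : Z → Fin D → ℝ) :
    ∃ (m : ℕ) (b : Fin m → Z) (lam : Z → Fin m → ℝ), m ≤ D + 1 ∧ 0 < m ∧
      (∀ i, lam (b i) = Pi.single i 1) ∧ (∀ z i, |lam z i| ≤ 1) ∧ (∀ z, ∑ i, lam z i = 1) ∧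
      ∀ z, P z = ∑ i, lam z i • P (b i) := by
  obtain ⟨m, b, lam, hm, hb, h1, hQ⟩ := spanner (fun z => ((1 : ℝ), P z))
  have hfr : Module.finrank ℝ (ℝ × (Fin D → ℝ)) = D + 1 := by
    rw [Module.finrank_prod, Module.finrank_self, Module.finrank_fin_fun]
    ring
  have hsum : ∀ z, ∑ i, lam z i = 1 := by
    intro z
    have h2 := congrArg Prod.fst (hQ z)
    rw [Prod.fst_sum] at h2
    simpa using h2.symm
  refine ⟨m, b, lam, by rw [hfr] at hm; exact hm, ?_, hb, h1, hsum, ?_⟩
  · rcases Nat.eq_zero_or_pos m with h | h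
    · subst h
      obtain ⟨z⟩ := ‹Nonempty Z›
      have := hsum z
      simp at this
    · exact h
  · intro z
    have h2 := congrArg Prod.snd (hQ z)
    rw [Prod.snd_sum] at h2
    simpa using h2

/-- Adding a small multiple of a common centre to a signed weight that satisfies the rounded linear
inequalities makes it satisfy all the convex constraints. -/
theorem core {Z : Type*} [Fintype Z] [Nonempty Z] [DecidableEq Z] {R D : ℕ}
    (P : Fin R → Z → Fin D → ℝ)
    (m : Fin R → ℕ) (b : ∀ j, Fin (m j) → Z) (lam : ∀ j, Z → Fin (m j) → ℝ)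
    (hm0 : ∀ j, 0 < m j) (hb : ∀ j i, lam j (b j i) = Pi.single i 1)
    (h1 : ∀ j z i, |lam j z i| ≤ 1) (hs : ∀ j z, ∑ i, lam j z i = 1)
    (hP : ∀ j z, P j z = ∑ i, lam j z i • P j (b j i))
    (M : ℕ) (hM : 1 ≤ M) (η : ℝ) (hη : 0 < η) (hMη : ∀ j, 2 * (m j : ℝ) ^ 2 ≤ M * η)
    (c : Z → ℝ) (hc : ∑ z, c z = 1)
    (hu : ∀ j, ∀ u : Fin (m j) → Fin (M + 1), ∃ z,
      ∑ z', c z' * (∑ i, ((u i : ℕ) : ℝ) * lam j z' i) ≤ ∑ i, ((u i : ℕ) : ℝ) * lam j z i) :
    ∃ γ : Z → ℝ, (∀ z, 0 ≤ γ z) ∧ ∑ z, γ z = R ∧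
      ∀ j, ∀ C : Set (Fin D → ℝ), Convex ℝ C → (∀ z, P j z ∈ C) →
        ∑ z, ((1 + η * R)⁻¹ * (c z + η * γ z)) • P j z ∈ C := by
  classical
  have hR0 : (0 : ℝ) ≤ R := Nat.cast_nonneg _
  have hpos : (0 : ℝ) < 1 + η * R := by positivity
  -- the centre of block `i`
  set g : Fin R → Z → ℝ := fun i z => (1 / (m i : ℝ)) * ∑ l, if b i l = z then 1 else 0 with hg
  have hg0 : ∀ i z, 0 ≤ g i z := by
    intro i z
    apply mul_nonneg (by positivity)
    refine Finset.sum_nonneg fun l _ => ?_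
    split <;> norm_num
  -- sums against the centre
  have hgs : ∀ (i : Fin R) {E : Type} [AddCommGroup E] [Module ℝ E] (f : Z → E),
      ∑ z, g i z • f z = (1 / (m i : ℝ)) • ∑ l, f (b i l) := by
    intro i E _ _ f
    rw [Finset.smul_sum]
    calc ∑ z, g i z • f z = ∑ z, ∑ l, (1 / (m i : ℝ)) • (if b i l = z then f z else 0) := by
          refine Finset.sum_congr rfl fun z _ => ?_
          rw [hg, ← Finset.smul_sum, ← smul_smul, Finset.sum_smul]
          congr 1
          refine Finset.sum_congr rfl fun l _ => ?_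
          split <;> simp
      _ = ∑ l, ∑ z, (1 / (m i : ℝ)) • (if b i l = z then f z else 0) := Finset.sum_comm
      _ = _ := by
          refine Finset.sum_congr rfl fun l _ => ?_
          rw [← Finset.smul_sum, Finset.sum_ite_eq Finset.univ (b i l) f]
          simp
  have hmR : ∀ i, (0 : ℝ) < m i := fun i => by exact_mod_cast hm0 i
  have hg1 : ∀ i, ∑ z, g i z = 1 := by
    intro i
    have h2 := hgs i (fun _ => (1 : ℝ))
    simp only [smul_eq_mul, mul_one] at h2
    rw [h2]
    simp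
    field_simp [(hmR i).ne']
  refine ⟨fun z => ∑ i, g i z, fun z => Finset.sum_nonneg fun i _ => hg0 i z, ?_, ?_⟩
  · rw [Finset.sum_comm, Finset.sum_congr rfl (fun i _ => hg1 i)]
    simp
  intro j C hC hPC
  set K := convexHull ℝ (Set.range (lam j)) with hK
  have hKc : Convex ℝ K := convex_convexHull ℝ _
  -- the linear map from coordinates
  let L : (Fin (m j) → ℝ) →ₗ[ℝ] (Fin D → ℝ) :=
    ∑ i, (LinearMap.proj i : (Fin (m j) → ℝ) →ₗ[ℝ] ℝ).smulRight (P j (b j i))
  have hL : ∀ v, L v = ∑ i, v i • P j (b j i) := by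
    intro v
    simp [L]
  have hLz : ∀ z, L (lam j z) = P j z := fun z => by rw [hL, ← hP]
  have hKL : K ⊆ L ⁻¹' C := by
    apply convexHull_min
    · rintro _ ⟨z, rfl⟩
      show L (lam j z) ∈ C
      rw [hLz]
      exact hPC z
    · exact hC.linear_preimage L
  have hsum : ∑ z, ((1 + η * R)⁻¹ * (c z + η * ∑ i, g i z)) • P j z =
      L (∑ z, ((1 + η * R)⁻¹ * (c z + η * ∑ i, g i z)) • lam j z) := by
    rw [map_sum]
    refine Finset.sum_congr rfl fun z _ => ?_
    rw [map_smul, hLz]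
  rw [hsum]
  apply hKL
  -- the point of block j
  set X : Fin (m j) → ℝ := ∑ z, c z • lam j z with hX
  have hXi : ∀ i, X i = ∑ z, c z * lam j z i := by
    intro i
    rw [hX]
    simp
  have hXs : ∑ i, X i = 1 := by
    rw [Finset.sum_congr rfl (fun i _ => hXi i), Finset.sum_comm, ← hc]
    refine Finset.sum_congr rfl fun z _ => ?_
    rw [← Finset.mul_sum, hs, mul_one]
  have hXu : ∀ u : Fin (m j) → Fin (M + 1), ∃ z, ∑ i, ((u i : ℕ) : ℝ) * X i ≤
      ∑ i, ((u i : ℕ) : ℝ) * lam j z i := by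
    intro u
    obtain ⟨z, hz⟩ := hu j u
    refine ⟨z, le_trans (le_of_eq ?_) hz⟩
    calc ∑ i, ((u i : ℕ) : ℝ) * X i = ∑ i, ∑ z', ((u i : ℕ) : ℝ) * (c z' * lam j z' i) := by
          refine Finset.sum_congr rfl fun i _ => ?_
          rw [hXi, Finset.mul_sum]
      _ = ∑ z', ∑ i, ((u i : ℕ) : ℝ) * (c z' * lam j z' i) := Finset.sum_comm
      _ = _ := by
          refine Finset.sum_congr rfl fun z' _ => ?_
          rw [Finset.mul_sum]
          refine Finset.sum_congr rfl fun i _ => ?_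
          ring
  have hXK := rounding (lam j) (b j) (hb j) (h1 j) (hs j) M hM η hη (hMη j) X hXs hXu
  -- the points of the other blocks
  have hgK : ∀ i, ∑ z, g i z • lam j z ∈ K := by
    intro i
    apply hKc.sum_mem (fun z _ => hg0 i z) (hg1 i)
    intro z _
    exact subset_convexHull ℝ _ ⟨z, rfl⟩
  have hgj : ∑ z, g j z • lam j z = fun _ => (1 / (m j : ℝ)) := by
    rw [hgs j (lam j)]
    funext i
    simp only [Pi.smul_apply, Finset.sum_apply, smul_eq_mul]
    rw [Finset.sum_congr rfl (fun l _ => by rw [hb j l])]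
    simp [Pi.single_apply]
  have hfin : ∑ z, ((1 + η * R)⁻¹ * (c z + η * ∑ i, g i z)) • lam j z =
      ∑ i, (if i = j then (1 + η) / (1 + η * R) else η / (1 + η * R)) •
        (if i = j then (1 + η)⁻¹ • (X + η • fun _ => (1 / m j : ℝ))
          else ∑ z, g i z • lam j z) := by
    have e1 : ∑ z, ((1 + η * R)⁻¹ * (c z + η * ∑ i, g i z)) • lam j z =
        (1 + η * R)⁻¹ • (X + η • ∑ i, ∑ z, g i z • lam j z) := by
      rw [hX, Finset.sum_comm, Finset.smul_sum, ← Finset.sum_add_distrib, Finset.smul_sum]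
      refine Finset.sum_congr rfl fun z _ => ?_
      rw [← Finset.sum_smul, smul_smul, ← add_smul, smul_smul]
    rw [e1, ← Finset.add_sum_erase _ _ (Finset.mem_univ j),
      ← Finset.add_sum_erase (Finset.univ : Finset (Fin R)) (fun i =>
        (if i = j then (1 + η) / (1 + η * R) else η / (1 + η * R)) •
        (if i = j then (1 + η)⁻¹ • (X + η • fun _ => (1 / m j : ℝ))
          else ∑ z, g i z • lam j z)) (Finset.mem_univ j)]
    have e2 : ∑ i ∈ Finset.univ.erase j,
        (if i = j then (1 + η) / (1 + η * R) else η / (1 + η * R)) •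
        (if i = j then (1 + η)⁻¹ • (X + η • fun _ => (1 / m j : ℝ))
          else ∑ z, g i z • lam j z) =
        ∑ i ∈ Finset.univ.erase j, (η / (1 + η * R)) • ∑ z, g i z • lam j z := by
      refine Finset.sum_congr rfl fun i hi => ?_
      rw [Finset.mem_erase] at hi
      rw [if_neg hi.1, if_neg hi.1]
    rw [e2, if_pos rfl, if_pos rfl, hgj, ← Finset.smul_sum, smul_smul]
    have e3 : (1 + η) / (1 + η * R) * (1 + η)⁻¹ = (1 + η * R)⁻¹ := by
      have : (1 + η : ℝ) ≠ 0 := by positivity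
      field_simp
    rw [e3]
    have e4 : η / (1 + η * R) = (1 + η * R)⁻¹ * η := by rw [div_eq_inv_mul]
    rw [e4, mul_smul, smul_add η, smul_add ((1 + η * (R : ℝ))⁻¹), smul_add ((1 + η * (R : ℝ))⁻¹),
      smul_add ((1 + η * (R : ℝ))⁻¹), add_assoc]
  rw [hfin]
  apply hKc.sum_mem
  · intro i _
    split <;> positivity
  · rw [← Finset.add_sum_erase _ _ (Finset.mem_univ j), if_pos rfl]
    have e2 : ∑ i ∈ Finset.univ.erase j,
        (if i = j then (1 + η) / (1 + η * R) else η / (1 + η * R)) =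
        ∑ _i ∈ Finset.univ.erase j, η / (1 + η * R) := by
      refine Finset.sum_congr rfl fun i hi => ?_
      rw [Finset.mem_erase] at hi
      rw [if_neg hi.1]
    rw [e2, Finset.sum_const, Finset.card_erase_of_mem (Finset.mem_univ j), Finset.card_univ,
      Fintype.card_fin, nsmul_eq_mul, Nat.cast_sub (by have := j.2; omega)]
    field_simp
    push_cast
    ring
  · intro i _
    by_cases hij : i = j
    · rw [if_pos hij]
      exact hXK
    · rw [if_neg hij]
      exact hgK i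

end Pool.Agent.Lib.P325cv
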