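import Pool.Agent.Lib.P325x.Defs
import Pool.Agent.Lib.P325cv.Core
import Pool.Agent.Lib.P325cv.Para

/-!
From linear programs to convex programs with constraints of small dimension, for unique games
with constraints `z (src e) + b e = z (dst e)` over `ZMod k` (`LPFails`, `ConvexFails` are only
abbreviations for the two statements; `Pr` is any property of games).
-/

open scoped BigOperators

namespace Pool.Agent.Lib.P325cv

open Pool.Agent.Lib.P325x (Game)

/-- For all large `N`, no linear program with at most `exp ((2 N) ^ q)` inequalities certifies the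
value `s` for all games on `N + N` vertices of value at most `δ` with the property `Pr`. -/
def LPFails (Pr : ∀ (N k : ℕ) (ι : Type) [Fintype ι], Game (Fin N) (Fin N) (ZMod k) ι → Prop)
    (s δ q : ℝ) (k : ℕ) : Prop :=
  ∃ N0 : ℕ, ∀ N ≥ N0, ∀ (Y : Type) [AddCommGroup Y] [Module ℝ Y] (R : ℕ)
      (A : Fin R → Y →ₗ[ℝ] ℝ) (c : Fin R → ℝ) (pt : (Fin N ⊕ Fin N → ZMod k) → Y),
      (R : ℝ) ≤ Real.exp ((2 * (N : ℝ)) ^ q) →
      (∀ z j, A j (pt z) ≤ c j) →
      ∃ (ι : Type) (_ : Fintype ι) (src dst : ι → Fin N) (b : ι → ZMod k), Nonempty ι ∧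
        (Game.mk src dst (fun e => Equiv.addRight (b e))).value ≤ δ ∧
        Pr N k ι (Game.mk src dst (fun e => Equiv.addRight (b e))) ∧
        ∀ (w : Y →ₗ[ℝ] ℝ) (w0 : ℝ),
          (∀ z, w (pt z) + w0 = (Game.mk src dst (fun e => Equiv.addRight (b e))).satFrac
            (fun u => z (Sum.inl u)) (fun u => z (Sum.inr u))) →
          ∃ y, (∀ j, A j y ≤ c j) ∧ s < w y + w0

/-- The same for convex programs with at most `exp ((2 N) ^ p)` constraints `A j y ∈ C j`, where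
`C j` is an arbitrary convex set in dimension at most `(2 N) ^ p`. -/
def ConvexFails (Pr : ∀ (N k : ℕ) (ι : Type) [Fintype ι], Game (Fin N) (Fin N) (ZMod k) ι → Prop)
    (s δ p : ℝ) (k : ℕ) : Prop :=
  ∃ N0 : ℕ, ∀ N ≥ N0, ∀ (Y : Type) [AddCommGroup Y] [Module ℝ Y] (R D : ℕ)
      (A : Fin R → Y →ₗ[ℝ] (Fin D → ℝ)) (C : Fin R → Set (Fin D → ℝ))
      (pt : (Fin N ⊕ Fin N → ZMod k) → Y),
      (R : ℝ) ≤ Real.exp ((2 * (N : ℝ)) ^ p) → (D : ℝ) ≤ (2 * (N : ℝ)) ^ p →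
      (∀ j, Convex ℝ (C j)) → (∀ z j, A j (pt z) ∈ C j) →
      ∃ (ι : Type) (_ : Fintype ι) (src dst : ι → Fin N) (b : ι → ZMod k), Nonempty ι ∧
        (Game.mk src dst (fun e => Equiv.addRight (b e))).value ≤ δ ∧
        Pr N k ι (Game.mk src dst (fun e => Equiv.addRight (b e))) ∧
        ∀ (w : Y →ₗ[ℝ] ℝ) (w0 : ℝ),
          (∀ z, w (pt z) + w0 = (Game.mk src dst (fun e => Equiv.addRight (b e))).satFrac
            (fun u => z (Sum.inl u)) (fun u => z (Sum.inr u))) →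
          ∃ y, (∀ j, A j y ∈ C j) ∧ s < w y + w0

theorem proj_sum {Z : Type*} [Fintype Z] (f c : Z → ℝ) :
    (∑ z, f z • (LinearMap.proj z : (Z → ℝ) →ₗ[ℝ] ℝ)) c = ∑ z, c z * f z := by
  simp only [LinearMap.sum_apply, LinearMap.smul_apply, LinearMap.proj_apply, smul_eq_mul]
  exact Finset.sum_congr rfl fun z _ => mul_comm _ _

theorem proj_single {Z : Type*} [Fintype Z] [DecidableEq Z] (f : Z → ℝ) (z : Z) :
    (∑ z', f z' • (LinearMap.proj z' : (Z → ℝ) →ₗ[ℝ] ℝ)) (Pi.single z 1) = f z := by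
  rw [proj_sum, Finset.sum_eq_single z]
  · simp
  · intro z' _ h
    simp [h]
  · intro h
    exact absurd (Finset.mem_univ z) h

theorem convexFails_of_lpFails
    (Pr : ∀ (N k : ℕ) (ι : Type) [Fintype ι], Game (Fin N) (Fin N) (ZMod k) ι → Prop)
    (s δ p q : ℝ) (k : ℕ) (hs0 : 0 < s) (hs : s < 1) (hk0 : k ≠ 0) (hp : 0 < p) (hq : 2 * p < q)
    (hLP : LPFails Pr (Real.sqrt s) δ q k) : ConvexFails Pr s δ p k := by
  classical
  have : NeZero k := ⟨hk0⟩
  set s1 : ℝ := Real.sqrt s with hs1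
  have hs10 : 0 < s1 := Real.sqrt_pos.2 hs0
  have hs11 : s1 < 1 := by
    rw [hs1, Real.sqrt_lt' one_pos]; simpa using hs
  have hs1s : s1 * s1 = s := Real.mul_self_sqrt hs0.le
  have hss1 : s < s1 := by nlinarith
  set θ : ℝ := 1 / s1 - 1 with hθ
  have hθ0 : 0 < θ := by
    have : 1 < 1 / s1 := by rw [lt_div_iff₀ hs10]; linarith
    linarith
  obtain ⟨N1, hN1⟩ := hLP
  obtain ⟨N2, hN2⟩ := para p q θ hp hq hθ0
  refine ⟨max N1 N2, fun N hN Y _ _ R D A C pt hR hDD hC hpt => ?_⟩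
  have hcount := hN2 N (le_trans (le_max_right _ _) hN) R D hR hDD
  set M : ℕ := ⌈2 * ((D : ℝ) + 1) ^ 2 * ((R : ℝ) + 1) / θ⌉₊ + 1 with hMdef
  set η : ℝ := θ / ((R : ℝ) + 1) with hη
  have hR1 : (0 : ℝ) < (R : ℝ) + 1 := by positivity
  have hη0 : 0 < η := div_pos hθ0 hR1
  have hηR : 1 + η * R ≤ 1 / s1 := by
    have : η * R ≤ θ := by
      rw [hη, div_mul_eq_mul_div, div_le_iff₀ hR1]
      nlinarith
    linarith
  have hM1 : 1 ≤ M := by omega
  have hMη : 2 * ((D : ℝ) + 1) ^ 2 ≤ M * η := by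
    have h1 : 2 * ((D : ℝ) + 1) ^ 2 * ((R : ℝ) + 1) / θ ≤ M := by
      rw [hMdef]
      push_cast
      have := Nat.le_ceil (2 * ((D : ℝ) + 1) ^ 2 * ((R : ℝ) + 1) / θ)
      linarith
    have h2 : 2 * ((D : ℝ) + 1) ^ 2 = 2 * ((D : ℝ) + 1) ^ 2 * ((R : ℝ) + 1) / θ * η := by
      rw [hη]
      field_simp
    rw [h2]
    exact mul_le_mul_of_nonneg_right h1 hη0.le
  -- the labelings
  let Z := Fin N ⊕ Fin N → ZMod k
  have : Nonempty Z := ⟨fun _ => 0⟩
  have hblock : ∀ j : Fin R, ∃ (m : ℕ) (b : Fin m → Z) (lam : Z → Fin m → ℝ), m ≤ D + 1 ∧ 0 < m ∧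
      (∀ i, lam (b i) = Pi.single i 1) ∧ (∀ z i, |lam z i| ≤ 1) ∧ (∀ z, ∑ i, lam z i = 1) ∧
      ∀ z, A j (pt z) = ∑ i, lam z i • A j (pt (b i)) := fun j => block (fun z => A j (pt z))
  choose m b lam hmD hm0 hb h1 hsum hP using hblock
  -- the linear program
  let J := Bool ⊕ (Σ j : Fin R, (Fin (m j) → Fin (M + 1)))
  have hJ : (Fintype.card J : ℝ) ≤ Real.exp ((2 * (N : ℝ)) ^ q) := by
    refine le_trans ?_ hcount
    have h2 : Fintype.card J = 2 + ∑ j : Fin R, (M + 1) ^ (m j) := by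
      simp only [J, Fintype.card_sum, Fintype.card_bool, Fintype.card_sigma, Fintype.card_pi,
        Fintype.card_fin, Finset.prod_const, Finset.card_univ]
    rw [h2]
    push_cast
    have h3 : ∑ j : Fin R, ((M : ℝ) + 1) ^ (m j) ≤ ∑ _j : Fin R, ((M : ℝ) + 1) ^ (D + 1) := by
      refine Finset.sum_le_sum fun j _ => ?_
      apply pow_le_pow_right₀ _ (hmD j)
      have : (0 : ℝ) ≤ M := Nat.cast_nonneg _
      linarith
    rw [Finset.sum_const, Finset.card_univ, Fintype.card_fin, nsmul_eq_mul] at h3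
    linarith
  let fu : ∀ j : Fin R, (Fin (m j) → Fin (M + 1)) → Z → ℝ :=
    fun j u z => ∑ i, ((u i : ℕ) : ℝ) * lam j z i
  have hmax : ∀ (j : Fin R) (u : Fin (m j) → Fin (M + 1)), ∃ z0, ∀ z, fu j u z ≤ fu j u z0 :=
    fun j u => Finite.exists_max (fu j u)
  choose z0 hz0 using hmax
  let AJ : J → (Z → ℝ) →ₗ[ℝ] ℝ := fun t => match t with
    | Sum.inl true => ∑ z, LinearMap.proj z
    | Sum.inl false => -∑ z, LinearMap.proj z
    | Sum.inr ⟨j, u⟩ => ∑ z, fu j u z • LinearMap.proj z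
  let cJ : J → ℝ := fun t => match t with
    | Sum.inl true => 1
    | Sum.inl false => -1
    | Sum.inr ⟨j, u⟩ => fu j u (z0 j u)
  let eJ := Fintype.equivFin J
  have hAJs : ∀ (t : J) (z : Z), AJ t (Pi.single z 1) ≤ cJ t := by
    intro t z
    match t with
    | Sum.inl true =>
        show (∑ z', (LinearMap.proj z' : (Z → ℝ) →ₗ[ℝ] ℝ)) (Pi.single z 1) ≤ 1
        simp
    | Sum.inl false =>
        show (-∑ z', (LinearMap.proj z' : (Z → ℝ) →ₗ[ℝ] ℝ)) (Pi.single z 1) ≤ -1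
        simp
    | Sum.inr ⟨j, u⟩ =>
        show (∑ z', fu j u z' • (LinearMap.proj z' : (Z → ℝ) →ₗ[ℝ] ℝ)) (Pi.single z 1) ≤
          fu j u (z0 j u)
        rw [proj_single]
        exact hz0 j u z
  obtain ⟨ι, hι, src, dst, bb, hne, hval, hPr, hmain⟩ :=
    hN1 N (le_trans (le_max_left _ _) hN) (Z → ℝ) (Fintype.card J)
      (fun i => AJ (eJ.symm i)) (fun i => cJ (eJ.symm i)) (fun z => Pi.single z 1)
      hJ (fun z i => hAJs _ z)
  refine ⟨ι, hι, src, dst, bb, hne, hval, hPr, fun w w0 hw => ?_⟩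
  set sat : Z → ℝ := fun z => (Game.mk src dst (fun e => Equiv.addRight (bb e))).satFrac
    (fun u => z (Sum.inl u)) (fun u => z (Sum.inr u)) with hsat
  have hsat0 : ∀ z, 0 ≤ sat z := by
    intro z
    rw [hsat]
    unfold Game.satFrac
    exact div_nonneg (Nat.cast_nonneg _) (Nat.cast_nonneg _)
  obtain ⟨c, hc1, hc2⟩ := hmain (∑ z, sat z • LinearMap.proj z) 0 (by
    intro z
    rw [proj_single, add_zero])
  have hcJ : ∀ t : J, AJ t c ≤ cJ t := by
    intro t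
    have := hc1 (eJ t)
    simpa using this
  have hcs : ∑ z, c z = 1 := by
    have h2 := hcJ (Sum.inl true)
    have h3 := hcJ (Sum.inl false)
    have h4 : AJ (Sum.inl true) c = ∑ z, c z := by
      show (∑ z', (LinearMap.proj z' : (Z → ℝ) →ₗ[ℝ] ℝ)) c = _
      simp [LinearMap.sum_apply]
    have h5 : AJ (Sum.inl false) c = -∑ z, c z := by
      show (-∑ z', (LinearMap.proj z' : (Z → ℝ) →ₗ[ℝ] ℝ)) c = _
      simp [LinearMap.sum_apply]
    rw [h4] at h2
    rw [h5] at h3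
    have h6 : cJ (Sum.inl true) = 1 := rfl
    have h7 : cJ (Sum.inl false) = -1 := rfl
    rw [h6] at h2
    rw [h7] at h3
    linarith
  have hu : ∀ j, ∀ u : Fin (m j) → Fin (M + 1), ∃ z,
      ∑ z', c z' * (∑ i, ((u i : ℕ) : ℝ) * lam j z' i) ≤ ∑ i, ((u i : ℕ) : ℝ) * lam j z i := by
    intro j u
    refine ⟨z0 j u, ?_⟩
    have h2 := hcJ (Sum.inr ⟨j, u⟩)
    have h3 : AJ (Sum.inr ⟨j, u⟩) c = ∑ z', c z' * fu j u z' := by
      exact proj_sum _ _
    rw [h3] at h2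
    exact h2
  have hMη' : ∀ j, 2 * (m j : ℝ) ^ 2 ≤ M * η := by
    intro j
    refine le_trans ?_ hMη
    have h2 : (m j : ℝ) ≤ (D : ℝ) + 1 := by exact_mod_cast hmD j
    have h3 : (0 : ℝ) ≤ m j := Nat.cast_nonneg _
    have h4 : (m j : ℝ) ^ 2 ≤ ((D : ℝ) + 1) ^ 2 := pow_le_pow_left₀ h3 h2 2
    linarith
  obtain ⟨γ, hγ0, hγs, hγC⟩ := core (fun j z => A j (pt z)) m b lam hm0 hb h1 hsum hP M hM1 η hη0
    hMη' c hcs hu
  have hpos : (0 : ℝ) < 1 + η * R := by positivity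
  set cs : Z → ℝ := fun z => (1 + η * R)⁻¹ * (c z + η * γ z) with hcsdef
  have hcs1 : ∑ z, cs z = 1 := by
    rw [hcsdef, ← Finset.mul_sum, Finset.sum_add_distrib, ← Finset.mul_sum, hcs, hγs]
    exact inv_mul_cancel₀ hpos.ne'
  refine ⟨∑ z, cs z • pt z, ?_, ?_⟩
  · intro j
    have h2 : A j (∑ z, cs z • pt z) = ∑ z, cs z • A j (pt z) := by
      rw [map_sum]
      exact Finset.sum_congr rfl fun z _ => by rw [map_smul]
    rw [h2]
    exact hγC j (C j) (hC j) (fun z => hpt z j)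
  · have h2 : w (∑ z, cs z • pt z) + w0 = ∑ z, cs z * sat z := by
      have h3 : w0 = ∑ z, cs z * w0 := by rw [← Finset.sum_mul, hcs1, one_mul]
      rw [map_sum]
      conv_lhs => rw [h3]
      rw [← Finset.sum_add_distrib]
      refine Finset.sum_congr rfl fun z _ => ?_
      rw [map_smul, smul_eq_mul, ← mul_add, hw z]
    rw [h2]
    have h3 : s1 < ∑ z, c z * sat z := by
      have h4 : (∑ z, sat z • (LinearMap.proj z : (Z → ℝ) →ₗ[ℝ] ℝ)) c + 0 = ∑ z, c z * sat z := by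
        rw [add_zero]
        exact proj_sum _ _
      rw [h4] at hc2
      exact hc2
    have h4 : ∑ z, cs z * sat z =
        (1 + η * R)⁻¹ * (∑ z, c z * sat z + η * ∑ z, γ z * sat z) := by
      rw [hcsdef, Finset.mul_sum, ← Finset.sum_add_distrib, Finset.mul_sum]
      refine Finset.sum_congr rfl fun z _ => ?_
      ring
    have h5 : 0 ≤ ∑ z, γ z * sat z := Finset.sum_nonneg fun z _ => mul_nonneg (hγ0 z) (hsat0 z)
    have h6 : s1 ≤ (1 + η * R)⁻¹ := by
      rw [le_inv_comm₀ hs10 hpos, ← one_div]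
      exact hηR
    have h7 : 0 ≤ η * ∑ z, γ z * sat z := mul_nonneg hη0.le h5
    rw [h4]
    have h8 : s1 * s1 < (1 + η * R)⁻¹ * (∑ z, c z * sat z + η * ∑ z, γ z * sat z) := by
      apply mul_lt_mul' h6 (by linarith) hs10.le (by positivity)
    rw [hs1s] at h8
    exact h8

end Pool.Agent.Lib.P325cv
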