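import Pool.Agent.Lib.P325P.MainP
import Pool.Agent.Lib.P325cv.Main

/-!
No convex program with few constraints of small dimension: the general case.
-/

open scoped BigOperators

namespace Pool.Agent.Lib.P325cv

open Pool.Agent.Lib.P325x (Game)

/-- Passage from the exponents of the linear programs to those of the convex programs. -/
theorem convex_of_lp (κ : ℝ) (hκ : 0 < κ)
    (Pr : ∀ (N k : ℕ) (ι : Type) [Fintype ι], Game (Fin N) (Fin N) (ZMod k) ι → Prop)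
    (s δ : ℝ) (hδ : 0 < δ) (hδ2 : δ ≤ 1 / 2) (hδs : δ ≤ s) (hs : s < 1) (k : ℕ) (hk0 : k ≠ 0)
    (hLP : LPFails Pr (Real.sqrt s) δ (Real.log (1 / Real.sqrt s) / Real.log (1 / δ) / κ) k) :
    ConvexFails Pr s δ (Real.log (1 / s) / Real.log (1 / δ) / (13 / 3 * κ)) k := by
  have hs0 : 0 < s := lt_of_lt_of_le hδ hδs
  have hD : 0 < Real.log (1 / δ) := by
    apply Real.log_pos
    rw [lt_div_iff₀ hδ]
    linarith
  have hX : 0 < Real.log (1 / s) := by
    apply Real.log_pos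
    rw [lt_div_iff₀ hs0]
    linarith
  have hX1 : Real.log (1 / Real.sqrt s) = Real.log (1 / s) / 2 := by
    rw [one_div, one_div, Real.log_inv, Real.log_inv, Real.log_sqrt hs0.le]
    ring
  have hx : 0 < Real.log (1 / s) / Real.log (1 / δ) := div_pos hX hD
  refine convexFails_of_lpFails Pr s δ _ _ k hs0 hs hk0 (by positivity) ?_ hLP
  rw [hX1]
  have e1 : 2 * (Real.log (1 / s) / Real.log (1 / δ) / (13 / 3 * κ)) =
      (6 / 13) * (Real.log (1 / s) / Real.log (1 / δ) / κ) := by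
    field_simp
    norm_num
  have e2 : Real.log (1 / s) / 2 / Real.log (1 / δ) / κ =
      (1 / 2) * (Real.log (1 / s) / Real.log (1 / δ) / κ) := by
    ring
  rw [e1, e2]
  have : 0 < Real.log (1 / s) / Real.log (1 / δ) / κ := by positivity
  linarith

theorem mainCv (s δ : ℝ) (hδ : 0 < δ) (hδ2 : δ ≤ 1 / 2) (hδs : δ ≤ s) (hs : s < 1)
    (k : ℕ) (hk : 36 ≤ (k : ℝ) * δ ^ 2) :
    ∃ N0 : ℕ, ∀ N ≥ N0, ∀ (Y : Type) [AddCommGroup Y] [Module ℝ Y] (R D : ℕ)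
      (A : Fin R → Y →ₗ[ℝ] (Fin D → ℝ)) (C : Fin R → Set (Fin D → ℝ))
      (pt : (Fin N ⊕ Fin N → ZMod k) → Y),
      (R : ℝ) ≤ Real.exp ((2 * (N : ℝ)) ^ (Real.log (1 / s) / Real.log (1 / δ) / 1300000)) →
      (D : ℝ) ≤ (2 * (N : ℝ)) ^ (Real.log (1 / s) / Real.log (1 / δ) / 1300000) →
      (∀ j, Convex ℝ (C j)) → (∀ z j, A j (pt z) ∈ C j) →
      ∃ (ι : Type) (_ : Fintype ι) (src dst : ι → Fin N) (b : ι → ZMod k), Nonempty ι ∧
        (Game.mk src dst (fun e => Equiv.addRight (b e))).value ≤ δ ∧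
        ∀ (w : Y →ₗ[ℝ] ℝ) (w0 : ℝ),
          (∀ z, w (pt z) + w0 = (Game.mk src dst (fun e => Equiv.addRight (b e))).satFrac
            (fun u => z (Sum.inl u)) (fun u => z (Sum.inr u))) →
          ∃ y, (∀ j, A j y ∈ C j) ∧ s < w y + w0 := by
  have hs0 : 0 < s := lt_of_lt_of_le hδ hδs
  have hk0 : k ≠ 0 := by
    rintro rfl
    norm_num at hk
  have hs11 : Real.sqrt s < 1 := by
    rw [Real.sqrt_lt' one_pos]; simpa using hs
  have hss1 : s ≤ Real.sqrt s := by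
    have h1 := Real.mul_self_sqrt hs0.le
    have h2 := Real.sqrt_pos.2 hs0
    nlinarith
  obtain ⟨N1, hN1⟩ := Pool.Agent.Lib.P325P.mainP (Real.sqrt s) δ hδ hδ2 (hδs.trans hss1) hs11 k hk
  have h := convex_of_lp 300000 (by norm_num) (fun _ _ _ _ _ => True) s δ hδ hδ2 hδs hs k hk0
    ⟨N1, fun N hN Y _ _ R A c pt hR hpt => by
      obtain ⟨ι, hι, src, dst, b, h1, h2, h3⟩ := hN1 N hN Y R A c pt hR hpt
      exact ⟨ι, hι, src, dst, b, h1, h2, trivial, h3⟩⟩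
  obtain ⟨N0, hN0⟩ := h
  refine ⟨N0, fun N hN Y _ _ R D A C pt hR hD hC hpt => ?_⟩
  have e : (13 / 3 * 300000 : ℝ) = 1300000 := by norm_num
  obtain ⟨ι, hι, src, dst, b, h1, h2, -, h3⟩ := hN0 N hN Y R D A C pt (by rw [e]; exact hR)
    (by rw [e]; exact hD) hC hpt
  exact ⟨ι, hι, src, dst, b, h1, h2, h3⟩

end Pool.Agent.Lib.P325cv
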