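import Mathlib

/-!
Barycentric spanners: a finite family of vectors contains a linearly independent subfamily in which
all the vectors have coordinates in `[-1, 1]` (a subfamily of maximal determinant).
-/

open scoped BigOperators

namespace Pool.Agent.Lib.P325cv

theorem spanner {Z E : Type*} [Fintype Z] [Nonempty Z] [AddCommGroup E] [Module ℝ E]
    [FiniteDimensional ℝ E] (Q : Z → E) :
    ∃ (m : ℕ) (b : Fin m → Z) (lam : Z → Fin m → ℝ), m ≤ Module.finrank ℝ E ∧
      (∀ i, lam (b i) = Pi.single i 1) ∧ (∀ z i, |lam z i| ≤ 1) ∧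
      ∀ z, Q z = ∑ i, lam z i • Q (b i) := by
  classical
  set S : Submodule ℝ E := Submodule.span ℝ (Set.range Q) with hS
  let Q' : Z → S := fun z => ⟨Q z, Submodule.subset_span ⟨z, rfl⟩⟩
  have hQ' : Submodule.span ℝ (Set.range Q') = ⊤ := by
    apply Submodule.map_injective_of_injective S.injective_subtype
    rw [Submodule.map_top, Submodule.range_subtype, Submodule.map_span, ← Set.range_comp]
    rfl
  set m := Module.finrank ℝ S with hm
  let e : Module.Basis (Fin m) ℝ S := Module.finBasis ℝ S
  -- a tuple with nonzero determinant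
  obtain ⟨t1, ht1⟩ : ∃ t : Fin m → Z, e.det (Q' ∘ t) ≠ 0 := by
    obtain ⟨B, hB1, hB2, hB3⟩ := exists_linearIndependent ℝ (Set.range Q')
    have hspan : Submodule.span ℝ B = ⊤ := by rw [hB2, hQ']
    have : Fintype B := (Set.Finite.subset (Set.finite_range Q') hB1).fintype
    have hcard : Fintype.card B = m := by
      have h1 : Module.finrank ℝ (Submodule.span ℝ B) = Fintype.card B := by
        have h0 := finrank_span_eq_card hB3
        rw [Subtype.range_coe_subtype] at h0
        exact h0
      rw [← h1, hspan, hm]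
      exact finrank_top ℝ S
    let f : Fin m ≃ B := (Fintype.equivFinOfCardEq hcard).symm
    have hch : ∀ i : Fin m, ∃ z, Q' z = (f i : S) := fun i => hB1 (f i).2
    choose t ht using hch
    refine ⟨t, ?_⟩
    have h1 : (Q' ∘ t) = fun i => ((f i : B) : S) := by
      funext i
      exact ht i
    have hli : LinearIndependent ℝ (Q' ∘ t) := by
      rw [h1]
      exact hB3.comp f f.injective
    have hsp : Submodule.span ℝ (Set.range (Q' ∘ t)) = ⊤ := by
      have h2 : Set.range (Q' ∘ t) = B := by
        rw [h1]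
        ext v
        constructor
        · rintro ⟨i, rfl⟩
          exact (f i).2
        · intro hv
          exact ⟨f.symm ⟨v, hv⟩, by simp⟩
      rw [h2, hspan]
    exact ((Module.Basis.is_basis_iff_det e).1 ⟨hli, hsp⟩).ne_zero
  -- maximal determinant
  obtain ⟨t, -, ht⟩ := Finset.exists_max_image (Finset.univ : Finset (Fin m → Z))
    (fun t => |e.det (Q' ∘ t)|) ⟨t1, Finset.mem_univ _⟩
  have hdet : e.det (Q' ∘ t) ≠ 0 := by
    have h1 := ht t1 (Finset.mem_univ _)
    have h2 : 0 < |e.det (Q' ∘ t1)| := abs_pos.2 ht1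
    exact abs_pos.1 (lt_of_lt_of_le h2 h1)
  obtain ⟨hli, hsp⟩ := (Module.Basis.is_basis_iff_det e).2 (isUnit_iff_ne_zero.2 hdet)
  let B : Module.Basis (Fin m) ℝ S := Module.Basis.mk hli hsp.ge
  have hBi : ∀ i, B i = Q' (t i) := fun i => by
    simp [B]
  refine ⟨m, t, fun z i => B.coord i (Q' z), ?_, ?_, ?_, ?_⟩
  · exact Submodule.finrank_le S
  · intro i
    funext l
    have h1 : B.coord l (Q' (t i)) = B.coord l (B i) := by rw [hBi]
    show B.coord l (Q' (t i)) = _
    rw [h1, Module.Basis.coord_apply, Module.Basis.repr_self]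
    rw [Finsupp.single_apply, Pi.single_apply]
    by_cases h : i = l
    · subst h; simp
    · rw [if_neg h, if_neg (Ne.symm h)]
  · intro z i
    have h1 := Module.Basis.det_smul_mk_coord_eq_det_update e hli hsp.ge i
    have h2 : e.det (Q' ∘ t) * B.coord i (Q' z) =
        e.det (Q' ∘ (Function.update t i z)) := by
      have h3 := congrArg (fun g : S →ₗ[ℝ] ℝ => g (Q' z)) h1
      simp only [LinearMap.smul_apply, smul_eq_mul, MultilinearMap.toLinearMap_apply] at h3
      have h4 : Function.update (Q' ∘ t) i (Q' z) = Q' ∘ (Function.update t i z) := by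
        rw [Function.comp_update]
      rw [h4] at h3
      exact h3
    have h5 : |e.det (Q' ∘ t)| * |B.coord i (Q' z)| ≤ |e.det (Q' ∘ t)| := by
      rw [← abs_mul, h2]
      exact ht _ (Finset.mem_univ _)
    have h6 : 0 < |e.det (Q' ∘ t)| := abs_pos.2 hdet
    exact le_of_mul_le_mul_left (by linarith) h6
  · intro z
    have h1 := B.sum_repr (Q' z)
    have h2 := congrArg (fun v : S => (v : E)) h1
    simp only [Submodule.coe_sum, Submodule.coe_smul, hBi] at h2
    exact h2.symm

end Pool.Agent.Lib.P325cv
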